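import Pool.Agent.W294.MZ.ExStmts

/-!
# MZ-EX-A: power series over a complete noetherian local ring
-/

set_option autoImplicit false

namespace Pool.Agent.W21.MZ

open IsLocalRing MvPowerSeries

variable {W : Type} [CommRing W] {σ : Type} [Finite σ]

/-- a power series without terms of degree `< n` is in the `n`-th power of the ideal of the
variables -/
lemma tail_mem (n : ℕ) (f : MvPowerSeries σ W) (hf : ∀ e : σ →₀ ℕ, e.degree < n → coeff e f = 0) :
    f ∈ (Ideal.span (Set.range (X : σ → MvPowerSeries σ W))) ^ n := by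
  set P := MvPolynomial σ W with hP
  set I := MvPolynomial.idealOfVars σ W with hI
  have htr : truncTotal n f = 0 := by
    ext e
    rw [coeff_truncTotal_eq_ite, MvPolynomial.coeff_zero]
    split_ifs with h
    · exact hf e h
    · rfl
  have h1 : toAdicCompletionAlgEquiv σ W f ∈ (I ^ n • ⊤ : Submodule P (AdicCompletion I P)) := by
    rw [AdicCompletion.pow_smul_top_eq_ker_eval (MvPolynomial.idealOfVars_fg σ W), LinearMap.mem_ker]
    change (toAdicCompletion σ W f).val n = 0
    rw [toAdicCompletion_apply_eq_mk_truncTotal, htr]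
    exact map_zero _
  have h2 : f ∈ (I ^ n • ⊤ : Submodule P (MvPowerSeries σ W)) := by
    have h3 := Submodule.mem_map_of_mem
      (f := (toAdicCompletionAlgEquiv σ W).symm.toLinearEquiv.toLinearMap) h1
    rw [Submodule.map_smul''] at h3
    have h4 : (toAdicCompletionAlgEquiv σ W).symm.toLinearEquiv.toLinearMap
        (toAdicCompletionAlgEquiv σ W f) = f := by
      change (toAdicCompletionAlgEquiv σ W).symm (toAdicCompletionAlgEquiv σ W f) = f
      exact AlgEquiv.symm_apply_apply _ _
    rw [h4] at h3
    exact (Submodule.smul_mono (le_refl _) le_top) h3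
  refine Submodule.smul_induction_on h2 (fun r hr t _ => ?_) (fun x y hx hy => add_mem hx hy)
  rw [Algebra.smul_def]
  apply Ideal.mul_mem_right
  have h5 : Ideal.map (algebraMap P (MvPowerSeries σ W)) I ≤
      Ideal.span (Set.range (X : σ → MvPowerSeries σ W)) := by
    rw [hI, MvPolynomial.idealOfVars, Ideal.map_span, Ideal.span_le]
    rintro _ ⟨_, ⟨s, rfl⟩, rfl⟩
    apply Ideal.subset_span
    refine ⟨s, ?_⟩
    exact (MvPolynomial.coe_X s).symm
  have h6 : algebraMap P (MvPowerSeries σ W) r ∈ (Ideal.map (algebraMap P (MvPowerSeries σ W)) I) ^ n := by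
    rw [← Ideal.map_pow]
    exact Ideal.mem_map_of_mem _ hr
  exact Ideal.pow_right_mono h5 n h6

variable [IsLocalRing W]

omit [Finite σ] in
lemma mem_max (f : MvPowerSeries σ W) : f ∈ maximalIdeal (MvPowerSeries σ W) ↔
    constantCoeff f ∈ maximalIdeal W := by
  rw [mem_maximalIdeal, mem_maximalIdeal, mem_nonunits_iff, mem_nonunits_iff, isUnit_iff_constantCoeff]

lemma span_le : Ideal.span (Set.range (X : σ → MvPowerSeries σ W)) ≤
    maximalIdeal (MvPowerSeries σ W) := by
  rw [Ideal.span_le]
  rintro _ ⟨s, rfl⟩
  rw [SetLike.mem_coe, mem_max, constantCoeff_X]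
  exact Ideal.zero_mem _

lemma C_mem (j : ℕ) (c : W) (hc : c ∈ maximalIdeal W ^ j) :
    (C c : MvPowerSeries σ W) ∈ maximalIdeal (MvPowerSeries σ W) ^ j := by
  have h1 : Ideal.map (C : W →+* MvPowerSeries σ W) (maximalIdeal W) ≤
      maximalIdeal (MvPowerSeries σ W) := by
    rw [Ideal.map_le_iff_le_comap]
    intro x hx
    rw [Ideal.mem_comap, mem_max, constantCoeff_C]
    exact hx
  have h2 : (C c : MvPowerSeries σ W) ∈ (Ideal.map (C : W →+* MvPowerSeries σ W) (maximalIdeal W)) ^ j := by
    rw [← Ideal.map_pow]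
    exact Ideal.mem_map_of_mem _ hc
  exact Ideal.pow_right_mono h1 j h2

lemma coeff_mem (j : ℕ) (f : MvPowerSeries σ W) (hf : f ∈ maximalIdeal (MvPowerSeries σ W) ^ j) :
    ∀ e : σ →₀ ℕ, coeff e f ∈ maximalIdeal W ^ (j - e.degree) := by
  classical
  induction j generalizing f with
  | zero =>
    intro e
    rw [Nat.zero_sub, pow_zero, Ideal.one_eq_top]
    exact Submodule.mem_top
  | succ j ih =>
    rw [pow_succ] at hf
    refine Submodule.mul_induction_on hf (fun g hg h hh e => ?_) (fun x y hx hy e => ?_)
    · rw [coeff_mul]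
      apply Ideal.sum_mem
      rintro ⟨a, b⟩ hab
      have hab' : a + b = e := Finset.HasAntidiagonal.mem_antidiagonal.1 hab
      have hdeg : a.degree + b.degree = e.degree := by rw [← hab', map_add]
      change coeff a g * coeff b h ∈ _
      by_cases hb : b = 0
      · have h1 := ih g hg a
        have h2 : coeff b h ∈ maximalIdeal W := by
          rw [hb]
          exact (mem_max h).1 hh
        have h3 : coeff a g * coeff b h ∈ maximalIdeal W ^ (j - a.degree + 1) := by
          rw [pow_succ]
          exact Ideal.mul_mem_mul h1 h2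
        refine Ideal.pow_le_pow_right ?_ h3
        omega
      · have h1 := ih g hg a
        have hb' : 1 ≤ b.degree := by
          rw [Nat.one_le_iff_ne_zero]
          intro h0
          exact hb ((Finsupp.degree_eq_zero_iff b).1 h0)
        refine Ideal.pow_le_pow_right ?_ (Ideal.mul_mem_right _ _ h1)
        omega
    · rw [map_add]
      exact add_mem (hx e) (hy e)

lemma X_pow_mem (e : σ →₀ ℕ) : (monomial e (1 : W) : MvPowerSeries σ W) ∈
    maximalIdeal (MvPowerSeries σ W) ^ e.degree := by
  classical
  apply Ideal.pow_right_mono span_le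
  apply tail_mem
  intro d hd
  rw [coeff_monomial, if_neg]
  rintro rfl
  exact lt_irrefl _ hd

lemma mem_of_coeff (j : ℕ) (f : MvPowerSeries σ W)
    (hf : ∀ e : σ →₀ ℕ, coeff e f ∈ maximalIdeal W ^ (j - e.degree)) :
    f ∈ maximalIdeal (MvPowerSeries σ W) ^ j := by
  classical
  have h1 : f - (truncTotal j f : MvPolynomial σ W) ∈ maximalIdeal (MvPowerSeries σ W) ^ j := by
    apply Ideal.pow_right_mono span_le j
    apply tail_mem
    intro e he
    rw [map_sub, MvPolynomial.coeff_coe, coeff_truncTotal _ he, sub_self]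
  have h2 : ((truncTotal j f : MvPolynomial σ W) : MvPowerSeries σ W) ∈
      maximalIdeal (MvPowerSeries σ W) ^ j := by
    have h3 : ((truncTotal j f : MvPolynomial σ W) : MvPowerSeries σ W) =
        ∑ e ∈ (truncTotal j f).support,
          ((MvPolynomial.monomial e ((truncTotal j f).coeff e) : MvPolynomial σ W) : MvPowerSeries σ W) := by
      conv_lhs => rw [(truncTotal j f).as_sum]
      exact map_sum (MvPolynomial.coeToMvPowerSeries.ringHom (σ := σ) (R := W)) _ _
    rw [h3]
    apply Ideal.sum_mem
    intro e he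
    have hdeg : e.degree < j := by
      by_contra hlt
      rw [MvPolynomial.mem_support_iff, coeff_truncTotal_eq_zero _ (not_lt.1 hlt)] at he
      exact he rfl
    rw [coeff_truncTotal _ hdeg, MvPolynomial.coe_monomial]
    have h4 : (monomial e (coeff e f) : MvPowerSeries σ W) = C (coeff e f) * monomial e 1 := by
      rw [← monomial_zero_eq_C_apply, monomial_mul_monomial, zero_add, mul_one]
    rw [h4]
    have h5 : C (coeff e f) * (monomial e (1 : W) : MvPowerSeries σ W) ∈
        maximalIdeal (MvPowerSeries σ W) ^ ((j - e.degree) + e.degree) := by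
      rw [pow_add]
      exact Ideal.mul_mem_mul (C_mem _ _ (hf e)) (X_pow_mem e)
    rwa [Nat.sub_add_cancel hdeg.le] at h5
  have := add_mem h1 h2
  rwa [sub_add_cancel] at this

theorem exA : MZEX.StmExA := by
  intro W _ _ _ _ σ _
  refine ⟨?_, fun f => mem_max f, fun m f => ⟨truncTotal m f, ?_⟩⟩
  · have hH : IsHausdorff (maximalIdeal (MvPowerSeries σ W)) (MvPowerSeries σ W) := inferInstance
    have hP : IsPrecomplete (maximalIdeal (MvPowerSeries σ W)) (MvPowerSeries σ W) := by
      refine ⟨fun f hf => ?_⟩
      have hf' : ∀ {m n : ℕ}, m ≤ n → ∀ e : σ →₀ ℕ,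
          coeff e (f m) - coeff e (f n) ∈ maximalIdeal W ^ (m - e.degree) := by
        intro m n hmn e
        have h1 := hf hmn
        rw [SModEq.sub_mem, smul_eq_mul, Ideal.mul_top] at h1
        have h2 := coeff_mem m _ h1 e
        rwa [map_sub] at h2
      have hL : ∀ e : σ →₀ ℕ, ∃ L : W, ∀ k : ℕ, coeff e (f (k + e.degree)) - L ∈ maximalIdeal W ^ k := by
        intro e
        obtain ⟨L, hL⟩ := (inferInstance : IsPrecomplete (maximalIdeal W) W).prec'
          (fun k => coeff e (f (k + e.degree))) (by
            intro k l hkl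
            rw [SModEq.sub_mem, smul_eq_mul, Ideal.mul_top]
            have := hf' (Nat.add_le_add_right hkl e.degree) e
            rwa [Nat.add_sub_cancel] at this)
        refine ⟨L, fun k => ?_⟩
        have := hL k
        rwa [SModEq.sub_mem, smul_eq_mul, Ideal.mul_top] at this
      choose L hL using hL
      let Lf : MvPowerSeries σ W := fun e => L e
      refine ⟨Lf, fun n => ?_⟩
      rw [SModEq.sub_mem, smul_eq_mul, Ideal.mul_top]
      apply mem_of_coeff
      intro e
      rw [map_sub]
      change coeff e (f n) - L e ∈ _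
      rcases Nat.lt_or_ge n e.degree with h | h
      · rw [Nat.sub_eq_zero_of_le h.le, pow_zero, Ideal.one_eq_top]
        exact Submodule.mem_top
      · have := hL e (n - e.degree)
        rwa [Nat.sub_add_cancel h] at this
    exact { hH, hP with }
  · apply Ideal.pow_right_mono span_le m
    apply tail_mem
    intro e he
    rw [map_sub, MvPolynomial.coeff_coe, coeff_truncTotal _ he, sub_self]

end Pool.Agent.W21.MZ

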